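import Mathlib

set_option autoImplicit false

open Module Matrix

namespace Pool.Agent.Results.MP_3b2a32_co.Full

universe u

/-- Vertices of `A_{k^n}`: a line `U` and a complement `V` of it. -/
abbrev Vx (k : Type u) [Field k] (n : ℕ) :=
  {p : Submodule k (Fin n → k) × Submodule k (Fin n → k) // finrank k p.1 = 1 ∧ IsCompl p.1 p.2}

/-- The graph `A_{k^n}`. -/
def A (k : Type u) [Field k] (n : ℕ) : SimpleGraph (Vx k n) where
  Adj p q := p.1.1 ≤ q.1.2 ∧ q.1.1 ≤ p.1.2
  symm := ⟨fun _ _ h => h.symm⟩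
  loopless := ⟨fun p h => by
    have := p.2.1
    rw [p.2.2.disjoint.eq_bot_of_le h.1, finrank_bot] at this
    exact zero_ne_one this⟩

variable {k : Type u} [Field k] {n : ℕ}

def vx (u w : Fin n → k) (h : w ⬝ᵥ u ≠ 0) : Vx k n :=
  ⟨(k ∙ u, LinearMap.ker (dotProductBilin k k w)),
    finrank_span_singleton (fun e => h (by simp [e])),
    (Submodule.disjoint_span_singleton.2 fun e => absurd e h).symm,
    codisjoint_iff.2 (LinearMap.span_singleton_sup_ker_eq_top _ h)⟩

lemma adj {u w u' w' : Fin n → k} (h h') (a : w' ⬝ᵥ u = 0) (b : w ⬝ᵥ u' = 0) :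
    (A k n).Adj (vx u w h) (vx u' w' h') :=
  ⟨(Submodule.span_singleton_le_iff_mem _ _).2 a, (Submodule.span_singleton_le_iff_mem _ _).2 b⟩

def D : List ((Fin 3 → ℤ) × (Fin 3 → ℤ)) :=
  [(![1,1,1], ![0,1,0]), (![1,0,1], ![0,1,-1]), (![1,0,0], ![1,0,-1]), (![1,0,1], ![0,0,1]),
  (![0,1,0], ![0,1,0]), (![1,0,0], ![1,1,-1]), (![0,1,1], ![0,1,0]), (![1,0,1], ![1,0,0]),
  (![0,0,1], ![1,0,-1]), (![0,0,1], ![1,1,-1]), (![0,1,0], ![1,1,-1]), (![1,-1,0], ![1,0,0]),
  (![0,1,1], ![0,0,1]), (![0,1,1], ![1,1,0]), (![0,0,1], ![0,1,-1]), (![1,-1,0], ![0,1,-1]),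
  (![1,-1,0], ![1,0,-1]), (![0,1,0], ![1,1,0]), (![1,-1,-1], ![1,0,0]), (![1,-1,1], ![0,0,1])]

def ip (i j : ℕ) : ℤ :=
  let a := (D.getD i (![1,0,0], ![1,0,0])).2
  let b := (D.getD j (![1,0,0], ![1,0,0])).1
  a 0 * b 0 + a 1 * b 1 + a 2 * b 2

def search : ℕ → List (Fin 3) → Bool
  | 0, _ => true
  | m + 1, c => (List.finRange 3).any fun a => ((List.range c.length).all fun j =>
      ip j c.length != 0 || ip c.length j != 0 || c.getD j 0 != a) && search m (c ++ [a])

lemma sound (f : ℕ → Fin 3) (hf : ∀ i j, ip i j = 0 → ip j i = 0 → f i ≠ f j) :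
    ∀ m i, search m ((List.range i).map f) = true
  | 0, _ => rfl
  | m + 1, i => by
    simp only [search, List.any_eq_true, Bool.and_eq_true, List.all_eq_true]
    refine ⟨f i, List.mem_finRange _, fun j hj => ?_, by simpa [List.range_succ] using sound f hf m (i + 1)⟩
    have hj' : j < i := by simpa using hj
    have := hf j i
    simp only [List.length_map, List.length_range, List.getD_eq_getElem?_getD, List.getElem?_map,
      List.getElem?_range hj', Option.map_some, Option.getD_some, Bool.or_eq_true, bne_iff_ne]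
    tauto

lemma ip_self (i : ℕ) : ip i i = 1 ∨ ip i i = -1 := by
  by_cases h : i < 20
  · revert i; decide
  · simp only [ip, List.getD_eq_default D _ (not_lt.1 h)]; simp

def U (k : Type u) [Field k] (m : ℕ) (a : Fin 3 → ℤ) : Fin (3 + m) → k :=
  Fin.append (fun t => (a t : k)) 0

def e (k : Type u) [Field k] {m : ℕ} (i : Fin m) : Fin (3 + m) → k :=
  Fin.append 0 (Pi.single i 1)

lemma UU (m i j : ℕ) : U k m (D.getD i (![1,0,0], ![1,0,0])).2 ⬝ᵥ
    U k m (D.getD j (![1,0,0], ![1,0,0])).1 = ip i j := by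
  simp [U, ip, dotProduct, Fin.sum_univ_add, Fin.sum_univ_three]

lemma Ue {m : ℕ} (a : Fin 3 → ℤ) (i : Fin m) : U k m a ⬝ᵥ e k i = 0 := by
  simp [U, e, dotProduct, Fin.sum_univ_add]

lemma ee {m : ℕ} (i j : Fin m) : e k i ⬝ᵥ e k j = if i = j then 1 else 0 := by
  simp [e, dotProduct, Fin.sum_univ_add, Pi.single_apply, eq_comm]

/-- For every field `k` and `n ≥ 3` the graph `A_{k^n}` has no proper colouring with `n` colours. -/
theorem result (k : Type u) [Field k] (n : ℕ) (hn : 3 ≤ n) : ¬ (A k n).Colorable n := by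
  obtain ⟨m, rfl⟩ := Nat.exists_eq_add_of_le hn
  rintro ⟨c⟩
  have h1 : ∀ i, U k m (D.getD i (![1,0,0], ![1,0,0])).2 ⬝ᵥ
      U k m (D.getD i (![1,0,0], ![1,0,0])).1 ≠ 0 := fun i => by
    rw [UU]; rcases ip_self i with h | h <;> simp [h]
  have h2 : ∀ i : Fin m, e k i ⬝ᵥ e k i ≠ 0 := fun i => by simp [ee]
  let g : Fin m → Fin (3 + m) := fun i => c (vx _ _ (h2 i))
  have gi : Function.Injective g := fun i j h => by
    by_contra d
    exact c.valid (adj _ _ (by simp [ee, Ne.symm d]) (by simp [ee, d])) h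
  have : Fintype.card ((Finset.univ.image g)ᶜ : Finset _) = 3 := by
    rw [Fintype.card_coe, Finset.card_compl, Finset.card_image_of_injective _ gi]; simp
  let q := Fintype.equivFinOfCardEq this
  have := sound (fun i => q ⟨c (vx _ _ (h1 i)), by
    simp only [Finset.mem_compl, Finset.mem_image, Finset.mem_univ, true_and, not_exists]
    exact fun j => c.valid (adj _ _ (Ue _ _) (by rw [dotProduct_comm, Ue]))⟩)
    (fun i j a b h => c.valid (adj _ _ (by rw [UU, b]; simp) (by rw [UU, a]; simp))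
      (congrArg Subtype.val (q.injective h))) 20 0
  exact absurd (show search 20 [] = true from this) (by decide +kernel)

end Pool.Agent.Results.MP_3b2a32_co.Full
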